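import Mathlib
import Pool.Agent.Lib.MP_b8c7e7_an.GOrd

set_option autoImplicit false

namespace Pool.Agent.Results.MP_b8c7e7_an.CountableOrdinals

universe u v

/-- The SHAI property: for every non-zero Banach space `Y`, every surjective algebra
homomorphism from the bounded operators on `X` onto the bounded operators on `Y` (linear and
multiplicative, not assumed to be unital or continuous) is injective. -/
def HasSHAI (𝕜 : Type) [RCLike 𝕜] (X : Type v) [NormedAddCommGroup X] [NormedSpace 𝕜 X] : Prop :=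
  ∀ (Y : Type u) [NormedAddCommGroup Y] [NormedSpace 𝕜 Y] [CompleteSpace Y] [Nontrivial Y]
    (ψ : (X →L[𝕜] X) →ₙₐ[𝕜] (Y →L[𝕜] Y)), Function.Surjective ψ → Function.Injective ψ

/-- For both scalar fields and every countable ordinal `α` (in particular for `ω ^ ω`), the
Banach space `C[0, α]` has the SHAI property. -/
theorem result :
    (Ordinal.omega0 ^ Ordinal.omega0 : Ordinal.{0}).card ≤ Cardinal.aleph0 ∧
    ∀ (𝕜 : Type) [RCLike 𝕜] (α : Ordinal.{0}), α.card ≤ Cardinal.aleph0 →
      HasSHAI.{u} 𝕜 C(Set.Icc 0 α, 𝕜) := by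
  refine ⟨?_, ?_⟩
  · refine (Ordinal.card_opow_le _ _).trans ?_
    simp
  · intro 𝕜 _ α hα Y _ _ _ _ ψ hψ
    exact Pool.Agent.Lib.SHAIg.main' hα ψ hψ

end Pool.Agent.Results.MP_b8c7e7_an.CountableOrdinals
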